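import Pool.Agent.L0h46.TS.Defs

/-! TS/SMQ: sums over powerful numbers. -/

set_option autoImplicit false

namespace Pool.Agent.L0h46.TS.SMQ

open Finset Pool.Agent.L0h46.TS

theorem radN_nat (n : ℕ) : radN (n : ℤ) = ∏ p ∈ n.primeFactors, p := by
  unfold radN
  rw [Int.natAbs_natCast]

theorem radN_pos (n : ℕ) : 0 < radN (n : ℤ) := by
  rw [radN_nat]
  exact Finset.prod_pos fun p hp => (Nat.prime_of_mem_primeFactors hp).pos

theorem exc_nat (n : ℕ) : (exc (n : ℤ) : ℝ) = (n : ℝ) / (radN (n : ℤ) : ℝ) := by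
  unfold exc
  rw [Int.natAbs_natCast]
  have h : radN (n : ℤ) ∣ n := by
    rw [radN_nat]
    exact Nat.prod_primeFactors_dvd n
  rw [Nat.cast_div h]
  exact_mod_cast (radN_pos n).ne'

/-! ### the multiplicative function -/

open Classical in
/-- `rad(q) ^ (-4/5) q ^ (-3/20)` for powerful `q` -/
noncomputable def g (q : ℕ) : ℝ :=
  if Pwf q then (radN (q : ℤ) : ℝ) ^ (-(4 / 5) : ℝ) * (q : ℝ) ^ (-(3 / 20) : ℝ) else 0

theorem g_nonneg (q : ℕ) : 0 ≤ g q := by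
  unfold g
  split_ifs
  · positivity
  · exact le_rfl

theorem pwf_mul {m n : ℕ} (h : Nat.Coprime m n) : Pwf (m * n) ↔ Pwf m ∧ Pwf n := by
  constructor
  · rintro ⟨h0, h1⟩
    have hm : 0 < m := Nat.pos_of_mul_pos_right h0 |> fun _ => Nat.pos_of_ne_zero (by
      rintro rfl
      simp at h0)
    have hn : 0 < n := Nat.pos_of_ne_zero (by
      rintro rfl
      simp at h0)
    refine ⟨⟨hm, fun p hp hpm => ?_⟩, ⟨hn, fun p hp hpn => ?_⟩⟩
    · have h2 := h1 p hp (hpm.mul_right n)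
      have h3 : Nat.Coprime (p ^ 2) n := (Nat.Coprime.coprime_dvd_left hpm h).pow_left 2
      exact h3.dvd_of_dvd_mul_right h2
    · have h2 := h1 p hp (hpn.mul_left m)
      have h3 : Nat.Coprime (p ^ 2) m := (Nat.Coprime.coprime_dvd_left hpn h.symm).pow_left 2
      exact h3.dvd_of_dvd_mul_left h2
  · rintro ⟨⟨hm, hm'⟩, ⟨hn, hn'⟩⟩
    refine ⟨Nat.mul_pos hm hn, fun p hp hpmn => ?_⟩
    rcases (hp.dvd_mul).1 hpmn with h2 | h2
    · exact (hm' p hp h2).mul_right n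
    · exact (hn' p hp h2).mul_left m

theorem radN_mul {m n : ℕ} (h : Nat.Coprime m n) :
    radN ((m * n : ℕ) : ℤ) = radN (m : ℤ) * radN (n : ℤ) := by
  rw [radN_nat, radN_nat, radN_nat, h.primeFactors_mul,
    Finset.prod_union h.disjoint_primeFactors]

theorem g_one : g 1 = 1 := by
  have h1 : Pwf 1 := ⟨one_pos, fun p hp h => absurd h (by simpa using hp.one_lt.ne')⟩
  unfold g
  rw [if_pos h1, radN_nat]
  simp

theorem g_mul {m n : ℕ} (h : Nat.Coprime m n) : g (m * n) = g m * g n := by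
  unfold g
  by_cases h1 : Pwf (m * n)
  · obtain ⟨hm, hn⟩ := (pwf_mul h).1 h1
    rw [if_pos h1, if_pos hm, if_pos hn, radN_mul h, Nat.cast_mul, Nat.cast_mul,
      Real.mul_rpow (by positivity) (by positivity), Real.mul_rpow (by positivity) (by positivity)]
    ring
  · rw [if_neg h1]
    by_cases hm : Pwf m
    · by_cases hn : Pwf n
      · exact absurd ((pwf_mul h).2 ⟨hm, hn⟩) h1
      · rw [if_neg hn, mul_zero]
    · rw [if_neg hm, zero_mul]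

theorem g_prime_pow {p : ℕ} (hp : p.Prime) (n : ℕ) : g (p ^ (n + 2)) =
    (p : ℝ) ^ (-(11 / 10) : ℝ) * ((p : ℝ) ^ (-(3 / 20) : ℝ)) ^ n := by
  have h1 : Pwf (p ^ (n + 2)) := by
    refine ⟨pow_pos hp.pos _, fun r hr h => ?_⟩
    have h2 := (Nat.prime_dvd_prime_iff_eq hr hp).1 (hr.dvd_of_dvd_pow h)
    rw [h2]
    exact pow_dvd_pow p (by omega)
  have hp0 : (0 : ℝ) < p := by exact_mod_cast hp.pos
  unfold g
  rw [if_pos h1, radN_nat, Nat.primeFactors_prime_pow (by omega) hp, Finset.prod_singleton,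
    Nat.cast_pow, ← Real.rpow_natCast (p : ℝ) (n + 2), ← Real.rpow_mul hp0.le,
    ← Real.rpow_natCast ((p : ℝ) ^ (-(3 / 20) : ℝ)) n, ← Real.rpow_mul hp0.le,
    ← Real.rpow_add hp0, ← Real.rpow_add hp0]
  congr 1
  push_cast
  ring

theorem g_prime {p : ℕ} (hp : p.Prime) : g p = 0 := by
  unfold g
  rw [if_neg]
  rintro ⟨_, h⟩
  have h1 := h p hp dvd_rfl
  have h2 := Nat.le_of_dvd hp.pos h1
  have := hp.one_lt
  nlinarith

theorem geom_lt {p : ℕ} (hp : p.Prime) : (p : ℝ) ^ (-(3 / 20) : ℝ) ≤ 19 / 20 := by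
  have h2 : (2 : ℝ) ≤ p := by exact_mod_cast hp.two_le
  have h3 : (p : ℝ) ^ (-(3 / 20) : ℝ) ≤ (2 : ℝ) ^ (-(3 / 20) : ℝ) :=
    Real.rpow_le_rpow_of_nonpos (by norm_num) h2 (by norm_num)
  refine h3.trans ?_
  rw [Real.rpow_neg (by norm_num)]
  have h4 : (20 / 19 : ℝ) ≤ (2 : ℝ) ^ (3 / 20 : ℝ) := by
    have h5 : (20 / 19 : ℝ) ^ (20 : ℝ) ≤ (2 : ℝ) ^ (3 : ℝ) := by
      have e1 : (20 / 19 : ℝ) ^ (20 : ℝ) = (20 / 19 : ℝ) ^ (20 : ℕ) := by
        rw [← Real.rpow_natCast]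
        norm_num
      have e2 : (2 : ℝ) ^ (3 : ℝ) = (2 : ℝ) ^ (3 : ℕ) := by
        rw [← Real.rpow_natCast]
        norm_num
      rw [e1, e2]
      norm_num
    have h6 := Real.rpow_le_rpow (by positivity) h5 (z := 1 / 20) (by norm_num)
    rw [← Real.rpow_mul (by norm_num), ← Real.rpow_mul (by norm_num)] at h6
    norm_num at h6
    exact h6
  have h7 : (0 : ℝ) < (2 : ℝ) ^ (3 / 20 : ℝ) := by positivity
  rw [inv_le_comm₀ h7 (by norm_num)]
  norm_num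
  norm_num at h4
  exact h4

theorem g_summable {p : ℕ} (hp : p.Prime) : Summable fun n : ℕ => g (p ^ n) := by
  have h0 : 0 ≤ (p : ℝ) ^ (-(3 / 20) : ℝ) := by positivity
  have h1 : Summable fun n : ℕ => g (p ^ (n + 2)) := by
    have h2 := (summable_geometric_of_lt_one h0
      (lt_of_le_of_lt (geom_lt hp) (by norm_num))).mul_left ((p : ℝ) ^ (-(11 / 10) : ℝ))
    refine h2.congr fun n => ?_
    rw [g_prime_pow hp n]
  exact (summable_nat_add_iff 2).1 h1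

theorem g_tsum {p : ℕ} (hp : p.Prime) :
    ∑' n : ℕ, g (p ^ n) ≤ Real.exp (20 * (p : ℝ) ^ (-(11 / 10) : ℝ)) := by
  have h0 : 0 ≤ (p : ℝ) ^ (-(3 / 20) : ℝ) := by positivity
  have hlt : (p : ℝ) ^ (-(3 / 20) : ℝ) < 1 := lt_of_le_of_lt (geom_lt hp) (by norm_num)
  rw [← (g_summable hp).sum_add_tsum_nat_add 2]
  have h1 : ∑ n ∈ range 2, g (p ^ n) = 1 := by
    rw [Finset.sum_range_succ, Finset.sum_range_one, pow_zero, pow_one, g_one, g_prime hp, add_zero]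
  have h2 : ∑' n : ℕ, g (p ^ (n + 2)) =
      (p : ℝ) ^ (-(11 / 10) : ℝ) * (1 - (p : ℝ) ^ (-(3 / 20) : ℝ))⁻¹ := by
    rw [tsum_congr fun n => g_prime_pow hp n, tsum_mul_left, tsum_geometric_of_lt_one h0 hlt]
  rw [h1, h2]
  have h3 : (1 - (p : ℝ) ^ (-(3 / 20) : ℝ))⁻¹ ≤ 20 := by
    rw [inv_le_comm₀ (by linarith) (by norm_num)]
    have := geom_lt hp
    linarith
  have h4 : (p : ℝ) ^ (-(11 / 10) : ℝ) * (1 - (p : ℝ) ^ (-(3 / 20) : ℝ))⁻¹ ≤
      20 * (p : ℝ) ^ (-(11 / 10) : ℝ) := by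
    rw [mul_comm]
    exact mul_le_mul_of_nonneg_right h3 (by positivity)
  have h5 := Real.add_one_le_exp (20 * (p : ℝ) ^ (-(11 / 10) : ℝ))
  linarith

theorem summable_11 : Summable fun n : ℕ => (n : ℝ) ^ (-(11 / 10) : ℝ) :=
  Real.summable_nat_rpow.2 (by norm_num)

theorem sum_g (E : Finset ℕ) (hE : ∀ q ∈ E, Pwf q) :
    ∑ q ∈ E, g q ≤ Real.exp (20 * ∑' n : ℕ, (n : ℝ) ^ (-(11 / 10) : ℝ)) := by
  classical
  obtain ⟨N, hN⟩ : ∃ N, ∀ q ∈ E, q < N := ⟨E.sup id + 1, fun q hq =>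
    Nat.lt_succ_of_le (Finset.le_sup (f := id) hq)⟩
  have hs : ∀ q ∈ E, q ∈ N.smoothNumbers := by
    intro q hq
    exact Nat.mem_smoothNumbers_of_lt (hE q hq).1 (hN q hq)
  obtain ⟨h1, h2⟩ := EulerProduct.summable_and_hasSum_smoothNumbers_prod_primesBelow_tsum
    (f := g) g_one (fun {m n} h => g_mul h) (fun {p} hp => (g_summable hp).norm) N
  have h3 : ∑ q ∈ E, g q ≤ ∏ p ∈ N.primesBelow, ∑' n : ℕ, g (p ^ n) := by
    rw [← h2.tsum_eq]
    have h4 : ∑ q ∈ E, g q = ∑ q ∈ (E.attach.map ⟨fun q => (⟨q.1, hs q.1 q.2⟩ : N.smoothNumbers),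
        fun a b hab => Subtype.ext (Subtype.mk.inj hab)⟩), g q := by
      rw [Finset.sum_map]
      exact (Finset.sum_attach E g).symm
    rw [h4]
    exact h2.summable.sum_le_tsum _ (fun q _ => g_nonneg q)
  refine h3.trans ?_
  calc ∏ p ∈ N.primesBelow, ∑' n : ℕ, g (p ^ n)
      ≤ ∏ p ∈ N.primesBelow, Real.exp (20 * (p : ℝ) ^ (-(11 / 10) : ℝ)) := by
        refine Finset.prod_le_prod (fun p _ => tsum_nonneg fun n => g_nonneg _) fun p hp => ?_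
        exact g_tsum (Nat.prime_of_mem_primesBelow hp)
    _ = Real.exp (20 * ∑ p ∈ N.primesBelow, (p : ℝ) ^ (-(11 / 10) : ℝ)) := by
        rw [← Real.exp_sum, Finset.mul_sum]
    _ ≤ _ := by
        apply Real.exp_le_exp.2
        apply mul_le_mul_of_nonneg_left _ (by norm_num)
        exact summable_11.sum_le_tsum _ (fun n _ => by positivity)

theorem part1 (T : ℝ) (hT : 1 ≤ T) (E : Finset ℕ) (hE : ∀ q ∈ E, Pwf q ∧ T ≤ (exc q : ℝ)) :
    ∑ q ∈ E, (q : ℝ) ^ (-(19 / 20) : ℝ) ≤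
      Real.exp (20 * ∑' n : ℕ, (n : ℝ) ^ (-(11 / 10) : ℝ)) * T ^ (-(4 / 5) : ℝ) := by
  have hT0 : 0 < T := by linarith
  have h1 : ∀ q ∈ E, (q : ℝ) ^ (-(19 / 20) : ℝ) ≤ g q * T ^ (-(4 / 5) : ℝ) := by
    intro q hq
    obtain ⟨hp, hTq⟩ := hE q hq
    have hq0 : (0 : ℝ) < q := by exact_mod_cast hp.1
    have hr0 : (0 : ℝ) < radN (q : ℤ) := by exact_mod_cast radN_pos q
    rw [exc_nat] at hTq
    unfold g
    rw [if_pos hp]
    have h2 : ((q : ℝ) / radN (q : ℤ)) ^ (-(4 / 5) : ℝ) ≤ T ^ (-(4 / 5) : ℝ) :=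
      Real.rpow_le_rpow_of_nonpos hT0 hTq (by norm_num)
    have h3 : (q : ℝ) ^ (-(19 / 20) : ℝ) = (radN (q : ℤ) : ℝ) ^ (-(4 / 5) : ℝ) *
        (q : ℝ) ^ (-(3 / 20) : ℝ) * ((q : ℝ) / radN (q : ℤ)) ^ (-(4 / 5) : ℝ) := by
      rw [Real.div_rpow hq0.le hr0.le]
      have h4 : (radN (q : ℤ) : ℝ) ^ (-(4 / 5) : ℝ) ≠ 0 := by positivity
      have h5 : (q : ℝ) ^ (-(19 / 20) : ℝ) =
          (q : ℝ) ^ (-(3 / 20) : ℝ) * (q : ℝ) ^ (-(4 / 5) : ℝ) := by
        rw [← Real.rpow_add hq0]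
        norm_num
      rw [h5]
      field_simp
    rw [h3]
    exact mul_le_mul_of_nonneg_left h2 (by positivity)
  calc ∑ q ∈ E, (q : ℝ) ^ (-(19 / 20) : ℝ) ≤ ∑ q ∈ E, g q * T ^ (-(4 / 5) : ℝ) :=
        Finset.sum_le_sum h1
    _ = (∑ q ∈ E, g q) * T ^ (-(4 / 5) : ℝ) := by rw [Finset.sum_mul]
    _ ≤ _ := mul_le_mul_of_nonneg_right (sum_g E fun q hq => (hE q hq).1) (by positivity)

/-! ### the number of powerful numbers -/

theorem pwf_repr {q : ℕ} (h : Pwf q) : ∃ a b : ℕ, 0 < a ∧ 0 < b ∧ q = a ^ 2 * b ^ 3 := by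
  obtain ⟨t, s, ht, hs, hst, hsq⟩ := Nat.sq_mul_squarefree_of_pos h.1
  have hdiv : t ∣ s := by
    have h1 : ∏ p ∈ t.primeFactors, p ∣ s := by
      refine Finset.prod_primes_dvd s (fun p hp => (Nat.prime_of_mem_primeFactors hp).prime) ?_
      intro p hp
      have hpp := Nat.prime_of_mem_primeFactors hp
      have hpt := Nat.dvd_of_mem_primeFactors hp
      by_contra hps
      have h2 : p ^ 2 ∣ s ^ 2 * t := by
        rw [hst]
        refine h.2 p hpp ?_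
        rw [← hst]
        exact hpt.mul_left _
      have h3 : Nat.Coprime (p ^ 2) (s ^ 2) :=
        Nat.Coprime.pow 2 2 ((Nat.Prime.coprime_iff_not_dvd hpp).2 hps)
      have h4 : p ^ 2 ∣ t := h3.dvd_of_dvd_mul_left h2
      have h5 := hsq p (by rw [← sq]; exact h4)
      exact hpp.one_lt.ne' (Nat.isUnit_iff.1 h5)
    rwa [Nat.prod_primeFactors_of_squarefree hsq] at h1
  obtain ⟨a, ha⟩ := hdiv
  refine ⟨a, t, ?_, ht, ?_⟩
  · rcases Nat.eq_zero_or_pos a with h0 | h0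
    · rw [h0, mul_zero] at ha
      omega
    · exact h0
  · rw [← hst, ha]
    ring

theorem part2 (Z : ℝ) (hZ : 1 ≤ Z) (E : Finset ℕ) (hE : ∀ q ∈ E, Pwf q ∧ (q : ℝ) ≤ Z) :
    (E.card : ℝ) ≤ (∑' n : ℕ, (n : ℝ) ^ (-(3 / 2) : ℝ)) * Z ^ ((1 : ℝ) / 2) := by
  classical
  have hZ0 : 0 < Z := by linarith
  have hex : ∀ q : ℕ, ∃ w : ℕ × ℕ, Pwf q → (0 < w.1 ∧ 0 < w.2 ∧ q = w.1 ^ 2 * w.2 ^ 3) := by
    intro q
    by_cases h : Pwf q
    · obtain ⟨a, b, h'⟩ := pwf_repr h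
      exact ⟨(a, b), fun _ => h'⟩
    · exact ⟨(0, 0), fun h' => absurd h' h⟩
  choose w hw using hex
  set N := ⌊Z⌋₊ with hN
  set B : Finset (Σ _ : ℕ, ℕ) := (Finset.Icc 1 N).sigma
    (fun b => Finset.Icc 1 ⌊(Z / (b : ℝ) ^ 3) ^ ((1 : ℝ) / 2)⌋₊) with hB
  have h1 : E.card ≤ B.card := by
    refine Finset.card_le_card_of_injOn (fun q => ⟨(w q).2, (w q).1⟩) ?_ ?_
    · intro q hq
      obtain ⟨hp, hqZ⟩ := hE q hq
      obtain ⟨ha, hb, he⟩ := hw q hp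
      have hb0 : (0 : ℝ) < (w q).2 := by exact_mod_cast hb
      rw [hB]
      refine Finset.mem_coe.2 (Finset.mem_sigma.2 ⟨Finset.mem_Icc.2 ⟨hb, ?_⟩,
        Finset.mem_Icc.2 ⟨ha, ?_⟩⟩)
      · apply Nat.le_floor
        refine le_trans ?_ hqZ
        have h2 : (w q).2 ≤ q := by
          conv_rhs => rw [he]
          calc (w q).2 ≤ (w q).2 ^ 3 := Nat.le_self_pow (by norm_num) _
            _ = 1 * (w q).2 ^ 3 := (one_mul _).symm
            _ ≤ (w q).1 ^ 2 * (w q).2 ^ 3 := Nat.mul_le_mul_right _ (Nat.one_le_pow _ _ ha)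
        exact_mod_cast h2
      · apply Nat.le_floor
        dsimp only
        have h3 : ((w q).1 : ℝ) ^ 2 ≤ Z / ((w q).2 : ℝ) ^ 3 := by
          rw [le_div_iff₀ (by positivity)]
          have h4 : ((q : ℕ) : ℝ) = ((w q).1 : ℝ) ^ 2 * ((w q).2 : ℝ) ^ 3 := by
            exact_mod_cast he
          rw [← h4]
          exact hqZ
        have h5 := Real.rpow_le_rpow (by positivity) h3 (z := (1 : ℝ) / 2) (by norm_num)
        rw [← Real.sqrt_eq_rpow, Real.sqrt_sq (by positivity)] at h5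
        exact h5
    · intro q hq q' hq' h
      have e1 : (w q).2 = (w q').2 := congrArg Sigma.fst h
      have e2 : (w q).1 = (w q').1 := by
        have := (Sigma.mk.inj_iff.1 h).2
        exact eq_of_heq this
      rw [(hw q (hE q hq).1).2.2, (hw q' (hE q' hq').1).2.2, e1, e2]
  have h2 : (B.card : ℝ) ≤ ∑ b ∈ Finset.Icc 1 N, (b : ℝ) ^ (-(3 / 2) : ℝ) * Z ^ ((1 : ℝ) / 2) := by
    rw [hB, Finset.card_sigma, Nat.cast_sum]
    refine Finset.sum_le_sum fun b hb => ?_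
    have hb0 : (0 : ℝ) < b := by exact_mod_cast (Finset.mem_Icc.1 hb).1
    rw [Nat.card_Icc, Nat.add_sub_cancel]
    refine (Nat.floor_le (by positivity)).trans (le_of_eq ?_)
    rw [Real.div_rpow hZ0.le (by positivity), ← Real.rpow_natCast, ← Real.rpow_mul hb0.le,
      Real.rpow_neg hb0.le, mul_comm, div_eq_mul_inv, mul_comm]
    norm_num
  calc (E.card : ℝ) ≤ B.card := by exact_mod_cast h1
    _ ≤ _ := h2
    _ = (∑ b ∈ Finset.Icc 1 N, (b : ℝ) ^ (-(3 / 2) : ℝ)) * Z ^ ((1 : ℝ) / 2) := by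
        rw [Finset.sum_mul]
    _ ≤ _ := by
        refine mul_le_mul_of_nonneg_right ?_ (by positivity)
        exact (Real.summable_nat_rpow.2 (by norm_num)).sum_le_tsum _ (fun n _ => by positivity)

theorem main : S_SMQ := by
  refine ⟨Real.exp (20 * ∑' n : ℕ, (n : ℝ) ^ (-(11 / 10) : ℝ)) +
    ∑' n : ℕ, (n : ℝ) ^ (-(3 / 2) : ℝ), ?_, ?_, ?_⟩
  · have : 0 ≤ ∑' n : ℕ, (n : ℝ) ^ (-(3 / 2) : ℝ) := tsum_nonneg fun n => by positivity
    positivity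
  · intro T hT E hE
    refine (part1 T hT E hE).trans ?_
    refine mul_le_mul_of_nonneg_right ?_ (by positivity)
    have : 0 ≤ ∑' n : ℕ, (n : ℝ) ^ (-(3 / 2) : ℝ) := tsum_nonneg fun n => by positivity
    linarith
  · intro Z hZ E hE
    refine (part2 Z hZ E hE).trans ?_
    refine mul_le_mul_of_nonneg_right ?_ (by positivity)
    have := Real.exp_pos (20 * ∑' n : ℕ, (n : ℝ) ^ (-(11 / 10) : ℝ))
    linarith

end Pool.Agent.L0h46.TS.SMQ
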